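import Mathlib

set_option autoImplicit false

/-!
# Integers with many prime factors in a set: second moment
-/

namespace Pool.Agent.Helper37.TL

open Finset

/-- nonzero multiples of `m` in `[-Y, Y]` -/
theorem card_dvd_le (Y m : ℕ) :
    #{D ∈ Icc (-(Y : ℤ)) Y | D ≠ 0 ∧ (m : ℤ) ∣ D} ≤ 2 * (Y / m) := by
  classical
  set S : Finset ℕ := {n ∈ Ioc 0 Y | m ∣ n} with hS
  have h1 : ({D ∈ Icc (-(Y : ℤ)) Y | D ≠ 0 ∧ (m : ℤ) ∣ D} : Finset ℤ) ⊆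
      S.image (fun n : ℕ => (n : ℤ)) ∪ S.image (fun n : ℕ => -(n : ℤ)) := by
    intro D hD
    rw [mem_filter, mem_Icc] at hD
    obtain ⟨⟨h2, h3⟩, h4, h5⟩ := hD
    have h6 : D.natAbs ∈ S := by
      rw [hS, mem_filter, mem_Ioc]
      exact ⟨⟨Int.natAbs_pos.2 h4, by omega⟩, Int.natCast_dvd.1 h5⟩
    rw [mem_union, mem_image, mem_image]
    rcases le_total 0 D with h | h
    · exact Or.inl ⟨D.natAbs, h6, by omega⟩
    · exact Or.inr ⟨D.natAbs, h6, by omega⟩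
  have h2 : #S = Y / m := Nat.Ioc_filter_dvd_card_eq_div Y m
  refine (card_le_card h1).trans ((card_union_le _ _).trans ?_)
  have h3 : #(S.image (fun n : ℕ => (n : ℤ))) ≤ #S := card_image_le
  have h4 : #(S.image (fun n : ℕ => -(n : ℤ))) ≤ #S := card_image_le
  omega

theorem sum_inv_le (x : ℕ) (P : Finset ℕ) (hP : ∀ p ∈ P, p.Prime ∧ p ≤ x) :
    ∑ p ∈ P, (1 : ℝ) / p ≤ 1 + Real.log x := by
  have h1 : P ⊆ Icc 1 x := fun p hp => by
    rw [mem_Icc]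
    exact ⟨(hP p hp).1.one_lt.le, (hP p hp).2⟩
  have h2 : ∑ p ∈ Icc 1 x, (1 : ℝ) / p = ((harmonic x : ℚ) : ℝ) := by
    rw [harmonic_eq_sum_Icc]
    push_cast
    exact sum_congr rfl fun p _ => one_div _
  refine (sum_le_sum_of_subset_of_nonneg h1 fun _ _ _ => by positivity).trans ?_
  rw [h2]
  exact harmonic_le_one_add_log x

/-- **second moment** -/
theorem omega_sq (x Y : ℕ) (P : Finset ℕ) (hP : ∀ p ∈ P, p.Prime ∧ p ≤ x) (w : ℝ) (hw : 0 < w) :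
    ((((Finset.Icc (-(Y : ℤ)) Y).filter (fun D => D ≠ 0 ∧
      w < (((P.filter (fun p : ℕ => (p : ℤ) ∣ D)).card : ℕ) : ℝ))).card : ℕ) : ℝ) * w ^ 2 ≤
      2 * Y * ((1 + Real.log x) ^ 2 + (1 + Real.log x)) := by
  classical
  set A : Finset ℤ := {D ∈ Icc (-(Y : ℤ)) Y | D ≠ 0} with hA
  have hY : (0 : ℝ) ≤ Y := Nat.cast_nonneg _
  have h0 : (0 : ℝ) ≤ ∑ p ∈ P, (1 : ℝ) / p := sum_nonneg fun _ _ => by positivity
  have hlog := sum_inv_le x P hP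
  have h1 : ((((Finset.Icc (-(Y : ℤ)) Y).filter (fun D => D ≠ 0 ∧
      w < (((P.filter (fun p : ℕ => (p : ℤ) ∣ D)).card : ℕ) : ℝ))).card : ℕ) : ℝ) * w ^ 2 ≤
      ∑ D ∈ A, (∑ p ∈ P, if (p : ℤ) ∣ D then (1 : ℝ) else 0) ^ 2 := by
    rw [← nsmul_eq_mul, ← sum_const]
    refine (sum_le_sum (g := fun D => (∑ p ∈ P, if (p : ℤ) ∣ D then (1 : ℝ) else 0) ^ 2)
      fun D hD => ?_).trans (sum_le_sum_of_subset_of_nonneg ?_ fun _ _ _ => sq_nonneg _)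
    · rw [mem_filter] at hD
      have h2 := hD.2.2
      rw [sum_boole]
      exact pow_le_pow_left₀ hw.le h2.le 2
    · intro D hD
      rw [mem_filter] at hD
      rw [hA, mem_filter]
      exact ⟨hD.1, hD.2.1⟩
  refine h1.trans ?_
  have h2 : ∑ D ∈ A, (∑ p ∈ P, if (p : ℤ) ∣ D then (1 : ℝ) else 0) ^ 2 =
      ∑ p ∈ P, ∑ q ∈ P, (#{D ∈ A | (p : ℤ) ∣ D ∧ (q : ℤ) ∣ D} : ℝ) := by
    simp_rw [sq, sum_mul_sum]
    rw [sum_comm]
    refine sum_congr rfl fun p _ => ?_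
    rw [sum_comm]
    refine sum_congr rfl fun q _ => ?_
    rw [card_filter]
    push_cast
    refine sum_congr rfl fun D _ => ?_
    by_cases hp : (p : ℤ) ∣ D <;> by_cases hq : (q : ℤ) ∣ D <;> simp [hp, hq]
  rw [h2]
  have h3 : ∀ p ∈ P, ∀ q ∈ P, (#{D ∈ A | (p : ℤ) ∣ D ∧ (q : ℤ) ∣ D} : ℝ) ≤
      2 * Y * ((1 : ℝ) / p * (1 / q)) + if p = q then 2 * Y * ((1 : ℝ) / p) else 0 := by
    intro p hp q hq
    have hp0 : (0 : ℝ) < p := by exact_mod_cast (hP p hp).1.pos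
    have hq0 : (0 : ℝ) < q := by exact_mod_cast (hP q hq).1.pos
    by_cases hpq : p = q
    · subst hpq
      rw [if_pos rfl]
      have h4 : ({D ∈ A | (p : ℤ) ∣ D ∧ (p : ℤ) ∣ D} : Finset ℤ) ⊆
          {D ∈ Icc (-(Y : ℤ)) Y | D ≠ 0 ∧ (p : ℤ) ∣ D} := by
        intro D hD
        rw [mem_filter, hA, mem_filter] at hD
        rw [mem_filter]
        exact ⟨hD.1.1, hD.1.2, hD.2.1⟩
      have h5 : (#{D ∈ A | (p : ℤ) ∣ D ∧ (p : ℤ) ∣ D} : ℝ) ≤ ((2 * (Y / p) : ℕ) : ℝ) := by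
        exact_mod_cast (card_le_card h4).trans (card_dvd_le Y p)
      have h6 : ((2 * (Y / p) : ℕ) : ℝ) ≤ 2 * Y * ((1 : ℝ) / p) := by
        push_cast
        have := @Nat.cast_div_le ℝ _ _ _ Y p
        calc 2 * ((Y / p : ℕ) : ℝ) ≤ 2 * ((Y : ℝ) / p) := by linarith
          _ = _ := by ring
      have h7 : 0 ≤ 2 * Y * ((1 : ℝ) / p * (1 / p)) := by positivity
      linarith
    · rw [if_neg hpq, add_zero]
      have h4 : ({D ∈ A | (p : ℤ) ∣ D ∧ (q : ℤ) ∣ D} : Finset ℤ) ⊆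
          {D ∈ Icc (-(Y : ℤ)) Y | D ≠ 0 ∧ ((p * q : ℕ) : ℤ) ∣ D} := by
        intro D hD
        rw [mem_filter, hA, mem_filter] at hD
        rw [mem_filter]
        refine ⟨hD.1.1, hD.1.2, ?_⟩
        rw [Nat.cast_mul]
        refine IsCoprime.mul_dvd ?_ hD.2.1 hD.2.2
        rw [Nat.isCoprime_iff_coprime]
        exact (Nat.coprime_primes (hP p hp).1 (hP q hq).1).2 hpq
      have h5 : (#{D ∈ A | (p : ℤ) ∣ D ∧ (q : ℤ) ∣ D} : ℝ) ≤ ((2 * (Y / (p * q)) : ℕ) : ℝ) := by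
        exact_mod_cast (card_le_card h4).trans (card_dvd_le Y (p * q))
      have h6 : ((2 * (Y / (p * q)) : ℕ) : ℝ) ≤ 2 * Y * ((1 : ℝ) / p * (1 / q)) := by
        rw [Nat.cast_mul]
        have := @Nat.cast_div_le ℝ _ _ _ Y (p * q)
        rw [Nat.cast_mul] at this
        calc ((2 : ℕ) : ℝ) * ((Y / (p * q) : ℕ) : ℝ) ≤ 2 * ((Y : ℝ) / (p * q)) := by
              push_cast
              linarith
          _ = _ := by
              field_simp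
      exact h5.trans h6
  refine (sum_le_sum fun p hp => sum_le_sum fun q hq => h3 p hp q hq).trans ?_
  have h4 : ∑ p ∈ P, ∑ q ∈ P, (2 * Y * ((1 : ℝ) / p * (1 / q)) +
      if p = q then 2 * Y * ((1 : ℝ) / p) else 0) =
      2 * Y * ((∑ p ∈ P, (1 : ℝ) / p) ^ 2 + ∑ p ∈ P, (1 : ℝ) / p) := by
    simp_rw [sum_add_distrib]
    rw [sq, sum_mul_sum, mul_add, mul_sum, mul_sum]
    congr 1
    · refine sum_congr rfl fun p _ => ?_
      rw [mul_sum]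
    · refine sum_congr rfl fun p hp => ?_
      rw [sum_ite_eq, if_pos hp]
  rw [h4]
  refine mul_le_mul_of_nonneg_left ?_ (by positivity)
  have h5 := pow_le_pow_left₀ h0 hlog 2
  linarith

end Pool.Agent.Helper37.TL
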