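import Mathlib

set_option autoImplicit false

/-!
# A grid of real numbers
-/

namespace Pool.Agent.Helper37.TL

open Filter

theorem grid (A : ℕ) : ∃ x1 : ℕ, ∀ x L : ℕ, x1 ≤ x → (x : ℝ) ≤ Real.exp L →
    ∃ j : ℕ, j ≤ L ^ (A + 3) ∧
      Nat.floor (Real.exp (j / (L : ℝ) ^ (A + 2))) ≤ x ∧
      x ≤ 2 * Nat.floor (Real.exp (j / (L : ℝ) ^ (A + 2))) ∧
      (x : ℝ) - (Nat.floor (Real.exp (j / (L : ℝ) ^ (A + 2))) : ℕ) ≤
        x / (4 * (Real.log x) ^ A) := by
  have h1 : ∀ᶠ x : ℝ in atTop, 8 * Real.log x ^ A ≤ x := by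
    have h2 := (Real.isLittleO_pow_log_id_atTop (n := A)).def (by norm_num : (0 : ℝ) < 1 / 8)
    filter_upwards [h2, eventually_ge_atTop 1] with x hx hx1
    rw [Real.norm_eq_abs, Real.norm_eq_abs, id, abs_of_nonneg (by linarith : (0 : ℝ) ≤ x)] at hx
    have := le_abs_self (Real.log x ^ A)
    linarith
  have h2 : ∀ᶠ x : ℝ in atTop, 3 ≤ Real.log x := Real.tendsto_log_atTop.eventually_ge_atTop 3
  obtain ⟨X, hX⟩ := eventually_atTop.1 (h1.and (h2.and (eventually_gt_atTop (0 : ℝ))))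
  obtain ⟨x1, hx1⟩ := exists_nat_ge X
  refine ⟨x1, fun x L hx hL => ?_⟩
  obtain ⟨h3, h4, h5⟩ := hX x (hx1.trans (by exact_mod_cast hx))
  set l : ℝ := Real.log x with hl
  have hlL : l ≤ L := by
    rw [hl, ← Real.log_exp (L : ℝ)]
    exact Real.log_le_log h5 hL
  have hl0 : 0 < l := by linarith
  set M : ℝ := (L : ℝ) ^ (A + 2) with hM
  have hML : l ^ (A + 2) ≤ M := pow_le_pow_left₀ hl0.le hlL _
  have hM0 : 0 < M := lt_of_lt_of_le (by positivity) hML
  set j : ℕ := Nat.floor (M * l) with hj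
  have hjle : (j : ℝ) ≤ M * l := Nat.floor_le (by positivity)
  have hjgt : M * l - 1 < j := Nat.sub_one_lt_floor _
  set y : ℝ := Real.exp (j / M) with hy
  have hyx : y ≤ x := by
    rw [hy, ← Real.exp_log h5, Real.exp_le_exp, div_le_iff₀ hM0, ← hl]
    linarith
  have hylow : (x : ℝ) - x / M ≤ y := by
    have h6 : l - 1 / M ≤ j / M := by
      rw [le_div_iff₀ hM0]
      have : (l - 1 / M) * M = M * l - 1 := by
        field_simp
      rw [this]
      exact hjgt.le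
    have h7 : Real.exp (l - 1 / M) ≤ y := Real.exp_le_exp.2 h6
    have h8 : Real.exp (l - 1 / M) = x * Real.exp (-(1 / M)) := by
      rw [sub_eq_add_neg, Real.exp_add, hl, Real.exp_log h5]
    have h9 := Real.add_one_le_exp (-(1 / M))
    have h10 := mul_le_mul_of_nonneg_left h9 h5.le
    have h11 : (x : ℝ) * (-(1 / M) + 1) = x - x / M := by ring
    linarith
  have hfl : (Nat.floor y : ℝ) ≤ y := Nat.floor_le (Real.exp_pos _).le
  have hfg : y - 1 < (Nat.floor y : ℝ) := Nat.sub_one_lt_floor _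
  have hxM : (x : ℝ) / M ≤ x / (8 * l ^ A) := by
    refine div_le_div_of_nonneg_left h5.le (by positivity) ?_
    refine le_trans ?_ hML
    have h6 : l ^ (A + 2) = l ^ A * l ^ 2 := pow_add _ _ _
    rw [h6]
    have h7 : (9 : ℝ) ≤ l ^ 2 := by nlinarith
    have h8 : 0 < l ^ A := by positivity
    nlinarith
  have h1x : (1 : ℝ) ≤ x / (8 * l ^ A) := by
    rw [le_div_iff₀ (by positivity), one_mul]
    exact h3
  have hmain : (x : ℝ) - (Nat.floor y : ℕ) ≤ x / (4 * l ^ A) := by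
    have h6 : (x : ℝ) / (4 * l ^ A) = x / (8 * l ^ A) + x / (8 * l ^ A) := by
      field_simp
      ring
    rw [h6]
    linarith
  refine ⟨j, ?_, ?_, ?_, hmain⟩
  · have h6 : (j : ℝ) ≤ (L : ℝ) ^ (A + 3) := by
      have h7 : (L : ℝ) ^ (A + 3) = M * L := pow_succ _ _
      rw [h7]
      exact hjle.trans (mul_le_mul_of_nonneg_left hlL hM0.le)
    exact_mod_cast h6
  · have h6 : (Nat.floor y : ℝ) ≤ x := hfl.trans hyx
    exact_mod_cast h6
  · have h6 : (1 : ℝ) ≤ l ^ A := one_le_pow₀ (by linarith)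
    have h7 : (x : ℝ) / (4 * l ^ A) ≤ x / 4 := by
      refine div_le_div_of_nonneg_left h5.le (by norm_num) ?_
      linarith
    have h8 : (x : ℝ) ≤ 2 * (Nat.floor y : ℝ) := by linarith
    exact_mod_cast h8

end Pool.Agent.Helper37.TL
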