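import Pool.Agent.Helper70.TW.Jac

set_option autoImplicit false

/-!
# Large values of sums of quadratic characters over primes

Powers of the sum and the inequality of Bombieri and Selberg.
-/

namespace Pool.Agent.Helper37.TL

open Finset
open Pool.Agent.Helper70.TW (psi psi_odd psi_mul_left psi_mul_right psi_abs_le psi_sum_le)

theorem psi_one (a : ℤ) : psi a 1 = 1 := by
  rw [psi_odd odd_one, jacobiSym.one_right]

theorem psi_prod {ι : Type} (a : ℤ) (s : Finset ι) (τ : ι → ℕ) :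
    psi a (∏ i ∈ s, τ i) = ∏ i ∈ s, psi a (τ i) := by
  classical
  induction s using Finset.induction_on with
  | empty => rw [prod_empty, prod_empty, psi_one]
  | insert i s hi ih => rw [prod_insert hi, prod_insert hi, psi_mul_right, ih]

/-- the tuples of primes with product `n` -/
theorem card_fibre (k : ℕ) (P : Finset ℕ) (hP : ∀ p ∈ P, p.Prime) (n : ℕ) :
    #{τ ∈ Fintype.piFinset (fun _ : Fin k => P) | ∏ i, τ i = n} ≤ k ^ k := by
  rcases ({τ ∈ Fintype.piFinset (fun _ : Fin k => P) | ∏ i, τ i = n} : Finset _).eq_empty_or_nonempty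
    with h | ⟨τ₀, hτ₀⟩
  · rw [h, card_empty]
    exact Nat.zero_le _
  · rw [mem_filter, Fintype.mem_piFinset] at hτ₀
    have hn : n ≠ 0 := by
      rw [← hτ₀.2]
      exact prod_ne_zero_iff.2 fun i _ => (hP _ (hτ₀.1 i)).ne_zero
    have hc : #n.primeFactors ≤ k := by
      have h1 : n.primeFactors ⊆ univ.image τ₀ := by
        intro q hq
        have hqp := Nat.prime_of_mem_primeFactors hq
        have hqd := Nat.dvd_of_mem_primeFactors hq
        rw [← hτ₀.2] at hqd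
        obtain ⟨i, hi, hqi⟩ := (hqp.prime.dvd_finsetProd_iff _).1 hqd
        rw [mem_image]
        exact ⟨i, hi, ((Nat.prime_dvd_prime_iff_eq hqp (hP _ (hτ₀.1 i))).1 hqi).symm⟩
      refine (card_le_card h1).trans (card_image_le.trans ?_)
      rw [card_univ, Fintype.card_fin]
    calc #{τ ∈ Fintype.piFinset (fun _ : Fin k => P) | ∏ i, τ i = n}
        ≤ #(Fintype.piFinset fun _ : Fin k => n.primeFactors) := by
          refine card_le_card fun τ hτ => ?_
          rw [mem_filter, Fintype.mem_piFinset] at hτ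
          rw [Fintype.mem_piFinset]
          intro i
          rw [Nat.mem_primeFactors]
          refine ⟨hP _ (hτ.1 i), ?_, hn⟩
          rw [← hτ.2]
          exact dvd_prod_of_mem τ (mem_univ i)
      _ = #n.primeFactors ^ k := by
          rw [Fintype.card_piFinset, prod_const, card_univ, Fintype.card_fin]
      _ ≤ k ^ k := Nat.pow_le_pow_left hc k

theorem not_isSquare_mul {D D' : ℤ} (hD : Squarefree D) (hD' : Squarefree D') (hne : D ≠ D') :
    ¬ IsSquare (D * D') := by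
  rintro ⟨r, hr⟩
  apply hne
  have h0 : D ≠ 0 := hD.ne_zero
  have h1 : D ∣ r := by
    have h2 : D ∣ r ^ 2 := ⟨D', by rw [sq, ← hr]⟩
    exact (hD.dvd_pow_iff_dvd two_ne_zero).1 h2
  obtain ⟨u, rfl⟩ := h1
  have h3 : D' = u * u * D := by
    have h4 : D * D' = D * (u * u * D) := by rw [hr]; ring
    exact mul_left_cancel₀ h0 h4
  have h5 : IsUnit u := hD' u ⟨D, h3⟩
  rcases Int.isUnit_iff.1 h5 with h | h <;> rw [h3, h] <;> ring

theorem sum_sq_le (Y N : ℕ) (DD : Finset ℤ) (hD : ∀ D ∈ DD, Squarefree D ∧ D.natAbs ≤ Y)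
    (s : ℤ → ℝ) (hs : ∀ D, |s D| ≤ 1) :
    ∑ n ∈ range N, (∑ D ∈ DD, s D * (psi D n : ℝ)) ^ 2 ≤
      (#DD : ℝ) * (N + 4 * (Y : ℝ) ^ 2 * #DD) := by
  have e1 : ∑ n ∈ range N, (∑ D ∈ DD, s D * (psi D n : ℝ)) ^ 2 =
      ∑ D ∈ DD, ∑ D' ∈ DD, s D * s D' * ∑ n ∈ range N, (psi (D * D') n : ℝ) := by
    simp_rw [sq, sum_mul_sum]
    rw [sum_comm]
    refine sum_congr rfl fun D _ => ?_
    rw [sum_comm]
    refine sum_congr rfl fun D' _ => ?_
    rw [mul_sum]
    refine sum_congr rfl fun n _ => ?_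
    rw [psi_mul_left]
    push_cast
    ring
  rw [e1]
  have e2 : ∀ D ∈ DD, ∀ D' ∈ DD, s D * s D' * ∑ n ∈ range N, (psi (D * D') n : ℝ) ≤
      (if D = D' then (N : ℝ) else 0) + 4 * (Y : ℝ) ^ 2 := by
    intro D hD1 D' hD1'
    have hss : |s D * s D'| ≤ 1 := by
      rw [abs_mul]
      exact mul_le_one₀ (hs D) (abs_nonneg _) (hs D')
    refine (le_abs_self _).trans ?_
    rw [abs_mul]
    refine (mul_le_of_le_one_left (abs_nonneg _) hss).trans ?_
    by_cases hDD : D = D'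
    · rw [if_pos hDD]
      have h1 : |∑ n ∈ range N, (psi (D * D') n : ℝ)| ≤ N := by
        refine (abs_sum_le_sum_abs _ _).trans ?_
        have h2 : ∀ n ∈ range N, |(psi (D * D') n : ℝ)| ≤ 1 := fun n _ => by
          have := psi_abs_le (D * D') n
          exact_mod_cast this
        refine (sum_le_sum h2).trans (le_of_eq ?_)
        simp
      have : (0 : ℝ) ≤ 4 * (Y : ℝ) ^ 2 := by positivity
      linarith
    · rw [if_neg hDD, zero_add]
      have h1 := psi_sum_le (D * D') (not_isSquare_mul (hD D hD1).1 (hD D' hD1').1 hDD) N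
      have h2 : |∑ n ∈ range N, (psi (D * D') n : ℝ)| ≤ 4 * ((D * D').natAbs : ℝ) := by
        have h3 := (Int.cast_le (R := ℝ)).2 h1
        have h4 : ((4 : ℤ) : ℝ) = 4 := by norm_num
        rw [Int.cast_abs, Int.cast_sum, Int.cast_mul, Int.cast_natCast, h4] at h3
        exact h3
      refine h2.trans ?_
      have h3 : (D * D').natAbs ≤ Y ^ 2 := by
        rw [Int.natAbs_mul, sq]
        exact Nat.mul_le_mul (hD D hD1).2 (hD D' hD1').2
      have h4 : ((D * D').natAbs : ℝ) ≤ (Y : ℝ) ^ 2 := by exact_mod_cast h3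
      linarith
  refine (sum_le_sum fun D hD1 => sum_le_sum fun D' hD1' => e2 D hD1 D' hD1').trans ?_
  have e3 : ∀ D ∈ DD, ∑ D' ∈ DD, ((if D = D' then (N : ℝ) else 0) + 4 * (Y : ℝ) ^ 2) =
      N + 4 * (Y : ℝ) ^ 2 * #DD := by
    intro D hD1
    rw [sum_add_distrib, sum_ite_eq, if_pos hD1, sum_const, nsmul_eq_mul]
    ring
  rw [sum_congr rfl e3, sum_const, nsmul_eq_mul]

/-- **large values** -/
theorem count_le_sq (k x Y : ℕ) (P : Finset ℕ) (hP : ∀ p ∈ P, p.Prime ∧ Odd p ∧ p ≤ x)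
    (c : ℕ → ℝ) (DD : Finset ℤ)
    (hD : ∀ D ∈ DD, Squarefree D ∧ D.natAbs ≤ Y) (V : ℝ) (hV : 0 ≤ V)
    (h : ∀ D ∈ DD, V ≤ |∑ p ∈ P, c p * (psi D p : ℝ)|) :
    (DD.card : ℝ) * V ^ (2 * k) ≤
      (k : ℝ) ^ k * (∑ p ∈ P, c p ^ 2) ^ k * ((x : ℝ) ^ k + 1 + 4 * (Y : ℝ) ^ 2 * DD.card) := by
  classical
  set T : Finset (Fin k → ℕ) := Fintype.piFinset (fun _ : Fin k => P) with hT
  set w : (Fin k → ℕ) → ℝ := fun τ => ∏ i, c (τ i) with hw
  set N : ℕ := x ^ k + 1 with hN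
  set S : ℤ → ℝ := fun D => ∑ p ∈ P, c p * (psi D p : ℝ) with hS
  set s : ℤ → ℝ := fun D => SignType.sign (S D ^ k) with hs
  set F : ℕ → ℝ := fun n => ∑ D ∈ DD, s D * (psi D n : ℝ) with hF
  set b : ℕ → ℝ := fun n => ∑ τ ∈ T with ∏ i, τ i = n, w τ with hb
  have hs1 : ∀ D, |s D| ≤ 1 := by
    intro D
    rw [hs]
    rcases SignType.trichotomy (SignType.sign (S D ^ k)) with h1 | h1 | h1 <;> simp [h1]
  -- powers
  have hpow : ∀ D, S D ^ k = ∑ τ ∈ T, w τ * (psi D (∏ i, τ i) : ℝ) := by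
    intro D
    rw [hS]
    simp only
    rw [Finset.sum_pow']
    refine sum_congr rfl fun τ _ => ?_
    rw [prod_mul_distrib, psi_prod]
    push_cast
    rfl
  have hmaps : ∀ τ ∈ T, ∏ i, τ i ∈ range N := by
    intro τ hτ
    rw [hT, Fintype.mem_piFinset] at hτ
    rw [mem_range, hN, Nat.lt_succ_iff]
    have h1 : ∏ i : Fin k, τ i ≤ ∏ _i : Fin k, x := prod_le_prod' fun i _ => (hP _ (hτ i)).2.2
    rwa [prod_const, card_univ, Fintype.card_fin] at h1
  -- lower bound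
  have h1 : (#DD : ℝ) * V ^ k ≤ ∑ n ∈ range N, b n * F n := by
    have h2 : ∑ n ∈ range N, b n * F n = ∑ D ∈ DD, s D * S D ^ k := by
      have h3 : ∀ n ∈ range N, b n * F n = ∑ τ ∈ T with ∏ i, τ i = n, w τ * F (∏ i, τ i) := by
        intro n _
        rw [hb]
        simp only
        rw [sum_mul]
        refine sum_congr rfl fun τ hτ => ?_
        rw [(mem_filter.1 hτ).2]
      rw [sum_congr rfl h3, sum_fiberwise_of_maps_to hmaps]
      rw [hF]
      simp only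
      simp_rw [mul_sum]
      rw [sum_comm]
      refine sum_congr rfl fun D _ => ?_
      rw [hpow D, mul_sum]
      refine sum_congr rfl fun τ _ => ?_
      ring
    rw [h2, ← nsmul_eq_mul, ← sum_const]
    refine sum_le_sum fun D hD1 => ?_
    have h3 : s D * S D ^ k = |S D ^ k| := by
      rw [hs]
      exact sign_mul_self _
    rw [h3, abs_pow]
    exact pow_le_pow_left₀ hV (h D hD1) k
  -- Cauchy
  have h2 : (∑ n ∈ range N, b n * F n) ^ 2 ≤ (∑ n ∈ range N, b n ^ 2) * ∑ n ∈ range N, F n ^ 2 :=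
    sum_mul_sq_le_sq_mul_sq _ _ _
  have h3 : ∑ n ∈ range N, b n ^ 2 ≤ (k : ℝ) ^ k * (∑ p ∈ P, c p ^ 2) ^ k := by
    have h5 : ∀ n ∈ range N, b n ^ 2 ≤ (k : ℝ) ^ k * ∑ τ ∈ T with ∏ i, τ i = n, w τ ^ 2 := by
      intro n _
      have h6 : (#{τ ∈ T | ∏ i, τ i = n} : ℝ) ≤ (k : ℝ) ^ k := by
        exact_mod_cast card_fibre k P (fun p hp => (hP p hp).1) n
      rw [hb]
      simp only
      refine (sq_sum_le_card_mul_sum_sq).trans ?_
      exact mul_le_mul_of_nonneg_right h6 (sum_nonneg fun _ _ => sq_nonneg _)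
    refine (sum_le_sum h5).trans (le_of_eq ?_)
    rw [← mul_sum, sum_fiberwise_of_maps_to hmaps, Finset.sum_pow']
    congr 1
    refine sum_congr rfl fun τ _ => ?_
    rw [hw]
    simp only
    rw [prod_pow]
  have h4 := sum_sq_le Y N DD hD s hs1
  have hc2 : 0 ≤ ∑ p ∈ P, c p ^ 2 := sum_nonneg fun _ _ => sq_nonneg _
  have h5 : ((#DD : ℝ) * V ^ k) ^ 2 ≤ ((k : ℝ) ^ k * (∑ p ∈ P, c p ^ 2) ^ k) *
      ((#DD : ℝ) * (N + 4 * (Y : ℝ) ^ 2 * #DD)) := by
    refine (pow_le_pow_left₀ (by positivity) h1 2).trans (h2.trans ?_)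
    exact mul_le_mul h3 h4 (sum_nonneg fun _ _ => sq_nonneg _) (by positivity)
  rcases Nat.eq_zero_or_pos #DD with h0 | h0
  · rw [h0]
    push_cast
    rw [zero_mul]
    positivity
  · have h0' : (0 : ℝ) < #DD := by exact_mod_cast h0
    have e : (N : ℝ) = (x : ℝ) ^ k + 1 := by
      rw [hN]
      push_cast
      ring
    rw [← e]
    have h6 : (#DD : ℝ) * ((#DD : ℝ) * V ^ (2 * k)) ≤
        #DD * ((k : ℝ) ^ k * (∑ p ∈ P, c p ^ 2) ^ k * (N + 4 * (Y : ℝ) ^ 2 * #DD)) := by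
      calc (#DD : ℝ) * ((#DD : ℝ) * V ^ (2 * k)) = ((#DD : ℝ) * V ^ k) ^ 2 := by
            rw [mul_comm 2 k, pow_mul]; ring
        _ ≤ _ := h5
        _ = _ := by ring
    exact le_of_mul_le_mul_left h6 h0'

theorem count_le (k x Y : ℕ) (P : Finset ℕ) (hP : ∀ p ∈ P, p.Prime ∧ Odd p ∧ p ≤ x)
    (c : ℕ → ℝ) (hc : ∀ p ∈ P, |c p| ≤ 1) (DD : Finset ℤ)
    (hD : ∀ D ∈ DD, Squarefree D ∧ D.natAbs ≤ Y) (V : ℝ) (hV : 0 ≤ V)
    (h : ∀ D ∈ DD, V ≤ |∑ p ∈ P, c p * (psi D p : ℝ)|) :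
    (DD.card : ℝ) * V ^ (2 * k) ≤
      (k : ℝ) ^ k * (P.card : ℝ) ^ k * ((x : ℝ) ^ k + 1 + 4 * (Y : ℝ) ^ 2 * DD.card) := by
  refine (count_le_sq k x Y P hP c DD hD V hV h).trans ?_
  have h1 : ∑ p ∈ P, c p ^ 2 ≤ #P := by
    rw [← mul_one ((#P : ℕ) : ℝ), ← nsmul_eq_mul, ← sum_const]
    refine sum_le_sum fun p hp => ?_
    rw [← sq_abs]
    exact pow_le_one₀ (abs_nonneg _) (hc p hp)
  have h2 : 0 ≤ ∑ p ∈ P, c p ^ 2 := sum_nonneg fun _ _ => sq_nonneg _
  refine mul_le_mul_of_nonneg_right ?_ (by positivity)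
  exact mul_le_mul_of_nonneg_left (pow_le_pow_left₀ h2 h1 k) (by positivity)

end Pool.Agent.Helper37.TL
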